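import Mathlib

/-!
# A deformation of a unital algebra which does not come from a universal deformation formula

`A = k ⊕ V` with `V = k[X]` and zero product on `V`, `R = k[ε]`, and the deformation
`v * w = ε v w` (product of polynomials) for `v, w` in `V`.  The first order term of a deformation
which comes from a UDF (up to equivalence) vanishes on a subspace of `V` of finite codimension.
-/

set_option autoImplicit false

open scoped TensorProduct

namespace Pool.Agent.Results.MP_8ccf7f_al.NotFromUDF

universe u v w x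

section Defs

variable {k : Type u} [Field k]

/-- The map `z ↦ z mod I` from `R ⊗ M` to `M`, where `π : R → k` is the residue map. -/
noncomputable def red {R : Type u} [CommRing R] [Algebra k R] (π : R →ₐ[k] k) (M : Type v)
    [AddCommGroup M] [Module k M] : R ⊗[k] M →ₗ[k] M :=
  (TensorProduct.lid k M).toLinearMap ∘ₗ LinearMap.rTensor M π.toLinearMap

/-- `m` is an `R`-deformation of `A`: an `R`-bilinear, associative and unital multiplication on
`R ⊗ A` which reduces to the multiplication of `A`. -/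
structure IsDeformation {R : Type u} [CommRing R] [Algebra k R] (π : R →ₐ[k] k) (A : Type u)
    [Ring A] [Algebra k A] (m : R ⊗[k] A →ₗ[R] R ⊗[k] A →ₗ[R] R ⊗[k] A) : Prop where
  assoc : ∀ x y z, m (m x y) z = m x (m y z)
  one_mul : ∀ x, m 1 x = x
  mul_one : ∀ x, m x 1 = x
  reduces : ∀ x y, red π A (m x y) = red π A x * red π A y

/-- Two multiplications on `R ⊗ A` are equivalent: an `R`-linear automorphism which is the identity
modulo `I` carries one to the other. -/
def Equivalent {R : Type u} [CommRing R] [Algebra k R] (π : R →ₐ[k] k) {A : Type u}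
    [Ring A] [Algebra k A] (m m' : R ⊗[k] A →ₗ[R] R ⊗[k] A →ₗ[R] R ⊗[k] A) : Prop :=
  ∃ g : (R ⊗[k] A) ≃ₗ[R] (R ⊗[k] A), (∀ x, red π A (g x) = red π A x) ∧
    ∀ x y, g (m x y) = m' (g x) (g y)

/-- `b ⊗ c ↦ (b a) (c a')` for an action `ρ` of `B` on `A`. -/
noncomputable def ev {A : Type u} [Ring A] [Algebra k A] {B : Type v} [Ring B] [Algebra k B]
    (ρ : B →ₐ[k] Module.End k A) (a a' : A) : B ⊗[k] B →ₗ[k] A :=
  LinearMap.mul' k A ∘ₗ TensorProduct.map (LinearMap.applyₗ a ∘ₗ ρ.toLinearMap)
    (LinearMap.applyₗ a' ∘ₗ ρ.toLinearMap)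

/-- `A` is a module algebra over the bialgebra `B` by means of `ρ`. -/
structure IsModuleAlgebra {A : Type u} [Ring A] [Algebra k A] {B : Type v} [Ring B]
    [Bialgebra k B] (ρ : B →ₐ[k] Module.End k A) : Prop where
  act_mul : ∀ b a a', ρ b (a * a') = ev ρ a a' (Coalgebra.comul (R := k) b)
  act_one : ∀ b, ρ b 1 = algebraMap k A (Coalgebra.counit (R := k) b)

section Twist
variable (R : Type u) [CommRing R] [Algebra k R] (B : Type v) [Ring B] [Bialgebra k B]

/-- `(Δ ⊗ id)` -/
noncomputable def dL : R ⊗[k] (B ⊗[k] B) →ₐ[k] R ⊗[k] (B ⊗[k] (B ⊗[k] B)) :=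
  Algebra.TensorProduct.map (AlgHom.id k R)
    ((Algebra.TensorProduct.assoc k k k B B B).toAlgHom.comp
      (Algebra.TensorProduct.map (Bialgebra.comulAlgHom k B) (AlgHom.id k B)))

/-- `(id ⊗ Δ)` -/
noncomputable def dR : R ⊗[k] (B ⊗[k] B) →ₐ[k] R ⊗[k] (B ⊗[k] (B ⊗[k] B)) :=
  Algebra.TensorProduct.map (AlgHom.id k R)
    (Algebra.TensorProduct.map (AlgHom.id k B) (Bialgebra.comulAlgHom k B))

/-- `F ↦ F ⊗ 1` -/
noncomputable def iL : R ⊗[k] (B ⊗[k] B) →ₐ[k] R ⊗[k] (B ⊗[k] (B ⊗[k] B)) :=
  Algebra.TensorProduct.map (AlgHom.id k R)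
    ((Algebra.TensorProduct.assoc k k k B B B).toAlgHom.comp
      Algebra.TensorProduct.includeLeft)

/-- `F ↦ 1 ⊗ F` -/
noncomputable def iR : R ⊗[k] (B ⊗[k] B) →ₐ[k] R ⊗[k] (B ⊗[k] (B ⊗[k] B)) :=
  Algebra.TensorProduct.map (AlgHom.id k R) Algebra.TensorProduct.includeRight

/-- `(ϵ ⊗ id)` -/
noncomputable def cL : R ⊗[k] (B ⊗[k] B) →ₐ[k] R ⊗[k] B :=
  Algebra.TensorProduct.map (AlgHom.id k R)
    ((Algebra.TensorProduct.lid k B).toAlgHom.comp
      (Algebra.TensorProduct.map (Bialgebra.counitAlgHom k B) (AlgHom.id k B)))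

/-- `(id ⊗ ϵ)` -/
noncomputable def cR : R ⊗[k] (B ⊗[k] B) →ₐ[k] R ⊗[k] B :=
  Algebra.TensorProduct.map (AlgHom.id k R)
    ((Algebra.TensorProduct.rid k k B).toAlgHom.comp
      (Algebra.TensorProduct.map (AlgHom.id k B) (Bialgebra.counitAlgHom k B)))

variable {R B}

/-- `F` is a universal deformation formula over `R` based on `B`: a twisting element of the
`R`-bialgebra `R ⊗ B` which reduces to `1 ⊗ 1`. -/
structure IsUDF (π : R →ₐ[k] k) (F : R ⊗[k] (B ⊗[k] B)) : Prop where
  twist : dL R B F * iL R B F = dR R B F * iR R B F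
  counit_left : cL R B F = 1
  counit_right : cR R B F = 1
  reduces : red π (B ⊗[k] B) F = 1

end Twist

/-- The multiplication `m` on `R ⊗ A` is given by `a * a' = μ(F (a ⊗ a'))`. -/
def GivenBy {R : Type u} [CommRing R] [Algebra k R] {A : Type u} [Ring A] [Algebra k A]
    {B : Type v} [Ring B] [Bialgebra k B] (ρ : B →ₐ[k] Module.End k A) (F : R ⊗[k] (B ⊗[k] B))
    (m : R ⊗[k] A →ₗ[R] R ⊗[k] A →ₗ[R] R ⊗[k] A) : Prop :=
  ∀ a a' : A, m (1 ⊗ₜ a) (1 ⊗ₜ a') = LinearMap.lTensor R (ev ρ a a') F

/-- The multiplication `m` on `R ⊗ A` comes from a universal deformation formula based on some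
bialgebra `B` (in any given universe). -/
def ComesFromUDF.{y} {R : Type u} [CommRing R] [Algebra k R] (π : R →ₐ[k] k) {A : Type u} [Ring A]
    [Algebra k A] (m : R ⊗[k] A →ₗ[R] R ⊗[k] A →ₗ[R] R ⊗[k] A) : Prop :=
  ∃ (B : Type y) (_ : Ring B) (_ : Bialgebra k B) (ρ : B →ₐ[k] Module.End k A)
    (F : R ⊗[k] (B ⊗[k] B)), IsModuleAlgebra ρ ∧ IsUDF π F ∧ GivenBy ρ F m

end Defs

section Example

variable (k : Type u) [Field k]

/-- The algebra `A = k ⊕ k[X]` with zero product on the second summand. -/
abbrev Alg : Type u := TrivSqZeroExt k (Polynomial k)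

/-- The bilinear map `β((a, v), (b, w)) = (0, v w)`. -/
noncomputable def beta : Alg k →ₗ[k] Alg k →ₗ[k] Alg k :=
  LinearMap.mk₂ k (fun a b => TrivSqZeroExt.inr (a.snd * b.snd))
    (fun a a' b => by
      rw [TrivSqZeroExt.snd_add, add_mul, TrivSqZeroExt.inr_add])
    (fun c a b => by
      rw [TrivSqZeroExt.snd_smul, smul_mul_assoc, TrivSqZeroExt.inr_smul])
    (fun a b b' => by
      rw [TrivSqZeroExt.snd_add, mul_add, TrivSqZeroExt.inr_add])
    (fun c a b => by
      rw [TrivSqZeroExt.snd_smul, mul_smul_comm, TrivSqZeroExt.inr_smul])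

theorem beta_apply (a b : Alg k) : beta k a b = TrivSqZeroExt.inr (a.snd * b.snd) := rfl

/-- The residue map of the dual numbers `k[ε]`. -/
noncomputable def pi : DualNumber k →ₐ[k] k := TrivSqZeroExt.fstHom k k k

/-- The deformed multiplication `a * b = a b + ε β(a, b)` on `k[ε] ⊗ A`. -/
noncomputable def mul : DualNumber k ⊗[k] Alg k →ₗ[DualNumber k] DualNumber k ⊗[k] Alg k
    →ₗ[DualNumber k] DualNumber k ⊗[k] Alg k :=
  LinearMap.BilinMap.baseChange (DualNumber k) (LinearMap.mul k (Alg k)) +
    (DualNumber.eps : DualNumber k) • LinearMap.BilinMap.baseChange (DualNumber k) (beta k)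

theorem mul_tmul (r s : DualNumber k) (a b : Alg k) :
    mul k (r ⊗ₜ a) (s ⊗ₜ b) = (r * s) ⊗ₜ (a * b) + (DualNumber.eps * (r * s)) ⊗ₜ beta k a b := by
  unfold mul
  rw [LinearMap.add_apply, LinearMap.add_apply, LinearMap.smul_apply, LinearMap.smul_apply,
    LinearMap.BilinMap.baseChange_tmul, LinearMap.BilinMap.baseChange_tmul,
    TensorProduct.smul_tmul', smul_eq_mul, LinearMap.mul_apply']

theorem beta_cocycle (a b c : Alg k) :
    beta k (a * b) c + beta k a b * c = beta k a (b * c) + a * beta k b c := by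
  refine TrivSqZeroExt.ext ?_ ?_
  · simp [beta_apply]
  · simp only [beta_apply, TrivSqZeroExt.snd_add, TrivSqZeroExt.snd_inr, TrivSqZeroExt.snd_mul,
      TrivSqZeroExt.fst_inr, MulOpposite.op_zero, zero_smul, add_zero, zero_add,
      op_smul_eq_smul]
    simp only [Polynomial.smul_eq_C_mul]
    ring

theorem isDeformation : IsDeformation (pi k) (Alg k) (mul k) := by
  refine ⟨?_, ?_, ?_, ?_⟩
  · intro x y z
    induction x using TensorProduct.induction_on with
    | zero => simp
    | add x x' hx hx' => simp only [map_add, LinearMap.add_apply, hx, hx']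
    | tmul r a =>
      induction y using TensorProduct.induction_on with
      | zero => simp
      | add y y' hy hy' => simp only [map_add, LinearMap.add_apply, hy, hy']
      | tmul s b =>
        induction z using TensorProduct.induction_on with
        | zero => simp
        | add z z' hz hz' => simp only [map_add, hz, hz']
        | tmul t c =>
          simp only [mul_tmul, map_add, LinearMap.add_apply]
          have h0 : ∀ u : DualNumber k, DualNumber.eps * (DualNumber.eps * u) = 0 := by
            intro u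
            rw [← mul_assoc, DualNumber.eps_mul_eps, zero_mul]
          have e1 : DualNumber.eps * (DualNumber.eps * (r * s) * t) = 0 := by
            rw [mul_assoc, h0]
          have e2 : DualNumber.eps * (r * (DualNumber.eps * (s * t))) = 0 := by
            rw [mul_left_comm r, h0]
          rw [e1, e2, TensorProduct.zero_tmul, TensorProduct.zero_tmul, add_zero, add_zero,
            mul_assoc a b c, mul_assoc r s t]
          have e3 : DualNumber.eps * (r * s) * t = DualNumber.eps * (r * (s * t)) := by ring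
          have e4 : r * (DualNumber.eps * (s * t)) = DualNumber.eps * (r * (s * t)) := by ring
          rw [e3, e4, add_assoc, add_assoc, ← TensorProduct.tmul_add, ← TensorProduct.tmul_add,
            beta_cocycle]
  · intro x
    induction x using TensorProduct.induction_on with
    | zero => simp
    | add x x' hx hx' => simp only [map_add, hx, hx']
    | tmul r a =>
      rw [Algebra.TensorProduct.one_def, mul_tmul, beta_apply]
      simp
  · intro x
    induction x using TensorProduct.induction_on with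
    | zero => simp
    | add x x' hx hx' => simp only [map_add, LinearMap.add_apply, hx, hx']
    | tmul r a =>
      rw [Algebra.TensorProduct.one_def, mul_tmul, beta_apply]
      simp
  · intro x y
    induction x using TensorProduct.induction_on with
    | zero => simp
    | add x x' hx hx' => simp only [map_add, LinearMap.add_apply, hx, hx', add_mul]
    | tmul r a =>
      induction y using TensorProduct.induction_on with
      | zero => simp
      | add y y' hy hy' => simp only [map_add, hy, hy', mul_add]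
      | tmul s b =>
        rw [mul_tmul]
        simp [red, pi]
        simp [smul_smul, mul_comm]

/-- The coefficient of `ε`. -/
noncomputable def r1 (M : Type v) [AddCommGroup M] [Module k M] : DualNumber k ⊗[k] M →ₗ[k] M :=
  (TensorProduct.lid k M).toLinearMap ∘ₗ LinearMap.rTensor M (TrivSqZeroExt.sndHom k k)

theorem r1_tmul {M : Type v} [AddCommGroup M] [Module k M] (r : DualNumber k) (x : M) :
    r1 k M (r ⊗ₜ x) = r.snd • x := by
  simp [r1]

theorem red_tmul {M : Type v} [AddCommGroup M] [Module k M] (r : DualNumber k) (x : M) :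
    red (pi k) M (r ⊗ₜ x) = r.fst • x := by
  simp [red, pi]

theorem red_smul {M : Type v} [AddCommGroup M] [Module k M] (r : DualNumber k)
    (x : DualNumber k ⊗[k] M) : red (pi k) M (r • x) = r.fst • red (pi k) M x := by
  induction x using TensorProduct.induction_on with
  | zero => simp
  | add x y hx hy => rw [smul_add, map_add, map_add, smul_add, hx, hy]
  | tmul s a =>
    rw [TensorProduct.smul_tmul', red_tmul, red_tmul, smul_eq_mul, TrivSqZeroExt.fst_mul, mul_smul]

theorem r1_smul {M : Type v} [AddCommGroup M] [Module k M] (r : DualNumber k)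
    (x : DualNumber k ⊗[k] M) :
    r1 k M (r • x) = r.fst • r1 k M x + r.snd • red (pi k) M x := by
  induction x using TensorProduct.induction_on with
  | zero => simp
  | add x y hx hy =>
    rw [smul_add, map_add, map_add, map_add, smul_add, smul_add, hx, hy]
    abel
  | tmul s a =>
    rw [TensorProduct.smul_tmul', red_tmul, r1_tmul, r1_tmul, smul_eq_mul, TrivSqZeroExt.snd_mul,
      add_smul, smul_eq_mul, mul_smul, smul_smul]
    simp [smul_smul, mul_comm]

theorem red_lTensor {M : Type v} {N : Type w} [AddCommGroup M] [Module k M] [AddCommGroup N]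
    [Module k N] (f : M →ₗ[k] N) (x : DualNumber k ⊗[k] M) :
    red (pi k) N (LinearMap.lTensor (DualNumber k) f x) = f (red (pi k) M x) := by
  induction x using TensorProduct.induction_on with
  | zero => simp
  | add x y hx hy => simp only [map_add, hx, hy]
  | tmul s a => rw [LinearMap.lTensor_tmul, red_tmul, red_tmul, map_smul]

theorem r1_lTensor {M : Type v} {N : Type w} [AddCommGroup M] [Module k M] [AddCommGroup N]
    [Module k N] (f : M →ₗ[k] N) (x : DualNumber k ⊗[k] M) :
    r1 k N (LinearMap.lTensor (DualNumber k) f x) = f (r1 k M x) := by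
  induction x using TensorProduct.induction_on with
  | zero => simp
  | add x y hx hy => simp only [map_add, hx, hy]
  | tmul s a => rw [LinearMap.lTensor_tmul, r1_tmul, r1_tmul, map_smul]

variable {k}

/-- The first order part of a multiplication given by `F`. -/
theorem r1_mul {B : Type w} [Ring B] [Bialgebra k B]
    (ρ : B →ₐ[k] Module.End k (Alg k)) (F : DualNumber k ⊗[k] (B ⊗[k] B))
    (hF : red (pi k) (B ⊗[k] B) F = 1)
    (m : DualNumber k ⊗[k] Alg k →ₗ[DualNumber k] DualNumber k ⊗[k] Alg k
      →ₗ[DualNumber k] DualNumber k ⊗[k] Alg k) (hm : GivenBy ρ F m)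
    (x y : DualNumber k ⊗[k] Alg k) :
    r1 k _ (m x y) = red (pi k) _ x * r1 k _ y + r1 k _ x * red (pi k) _ y +
      ev ρ (red (pi k) _ x) (red (pi k) _ y) (r1 k _ F) := by
  have hev : ∀ a a' : Alg k, ev ρ a a' 1 = a * a' := by
    intro a a'
    rw [Algebra.TensorProduct.one_def]
    simp [ev]
  have hevadd : ∀ (a b c : Alg k) (f : B ⊗[k] B), ev ρ (a + b) c f = ev ρ a c f + ev ρ b c f := by
    intro a b c f
    induction f using TensorProduct.induction_on with
    | zero => simp
    | add f f' h h' =>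
      simp only [map_add, h, h']
      abel
    | tmul f f' => simp [ev, add_mul]
  have hevadd' : ∀ (a b c : Alg k) (f : B ⊗[k] B), ev ρ a (b + c) f = ev ρ a b f + ev ρ a c f := by
    intro a b c f
    induction f using TensorProduct.induction_on with
    | zero => simp
    | add f f' h h' =>
      simp only [map_add, h, h']
      abel
    | tmul f f' => simp [ev, mul_add]
  have hevsmul : ∀ (r s : k) (a b : Alg k) (f : B ⊗[k] B),
      ev ρ (r • a) (s • b) f = (r * s) • ev ρ a b f := by
    intro r s a b f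
    induction f using TensorProduct.induction_on with
    | zero => simp
    | add f f' h h' => simp only [map_add, h, h', smul_add]
    | tmul f f' => simp [ev, smul_smul, mul_comm]
  induction x using TensorProduct.induction_on with
  | zero =>
    have h0 : ev ρ 0 (red (pi k) _ y) (r1 k _ F) = 0 := by
      have := hevadd 0 0 (red (pi k) _ y) (r1 k _ F)
      rw [add_zero] at this
      simpa using this
    simp [h0]
  | add x x' hx hx' =>
    simp only [map_add, LinearMap.add_apply, hx, hx', add_mul, hevadd]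
    abel
  | tmul r a =>
    induction y using TensorProduct.induction_on with
    | zero =>
      have h0 : ev ρ (red (pi k) _ (r ⊗ₜ[k] a)) 0 (r1 k _ F) = 0 := by
        have := hevadd' (red (pi k) _ (r ⊗ₜ[k] a)) 0 0 (r1 k _ F)
        rw [add_zero] at this
        simpa using this
      simp [h0]
    | add y y' hy hy' =>
      simp only [map_add, hy, hy', mul_add, hevadd']
      abel
    | tmul s b =>
      have e1 : r ⊗ₜ[k] a = r • ((1 : DualNumber k) ⊗ₜ[k] a) := by
        rw [TensorProduct.smul_tmul', smul_eq_mul, mul_one]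
      have e2 : s ⊗ₜ[k] b = s • ((1 : DualNumber k) ⊗ₜ[k] b) := by
        rw [TensorProduct.smul_tmul', smul_eq_mul, mul_one]
      have e3 : m (r ⊗ₜ[k] a) (s ⊗ₜ[k] b) =
          (s * r) • m ((1 : DualNumber k) ⊗ₜ[k] a) ((1 : DualNumber k) ⊗ₜ[k] b) := by
        rw [e1, e2, LinearMap.map_smul, LinearMap.map_smul, LinearMap.smul_apply, smul_smul]
      rw [e3, red_tmul, red_tmul, r1_tmul, r1_tmul, hevsmul, hm, r1_smul, r1_lTensor, red_lTensor, hF, hev,
        TrivSqZeroExt.fst_mul, TrivSqZeroExt.snd_mul, smul_mul_smul_comm, smul_mul_smul_comm,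
        add_comm, ← add_smul]
      simp only [smul_eq_mul, MulOpposite.smul_eq_mul_unop, MulOpposite.unop_op]
      congr 1
      · congr 1
        ring
      · congr 1
        ring

theorem exists_ne_zero {ι : Type*} [Finite ι] (f : ι → Polynomial k →ₗ[k] k) :
    ∃ p : Polynomial k, p ≠ 0 ∧ ∀ i, f i p = 0 := by
  by_contra hcon
  push Not at hcon
  have hinj : Function.Injective (LinearMap.pi f) := by
    rw [← LinearMap.ker_eq_bot, LinearMap.ker_eq_bot']
    intro p hp
    by_contra hp0
    obtain ⟨i, hi⟩ := hcon p hp0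
    exact hi (congrFun hp i)
  exact Polynomial.not_finite (Module.Finite.of_injective (LinearMap.pi f) hinj)

theorem not_equivalent (m' : DualNumber k ⊗[k] Alg k →ₗ[DualNumber k] DualNumber k ⊗[k] Alg k
    →ₗ[DualNumber k] DualNumber k ⊗[k] Alg k) (h : ComesFromUDF.{u, x} (pi k) m') :
    ¬ Equivalent (pi k) (mul k) m' := by
  rintro ⟨g, hg, hgm⟩
  obtain ⟨B, _, _, ρ, F, -, hF, hm⟩ := h
  obtain ⟨S, hS⟩ := TensorProduct.exists_finset (r1 k (B ⊗[k] B) F)
  let φ : Polynomial k →ₗ[k] k :=
    (TrivSqZeroExt.fstHom k k (Polynomial k)).toLinearMap ∘ₗ r1 k (Alg k) ∘ₗ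
      (g.toLinearMap.restrictScalars k) ∘ₗ TensorProduct.mk k (DualNumber k) (Alg k) 1 ∘ₗ
      TrivSqZeroExt.inrHom k (Polynomial k)
  let ψ : B → Polynomial k →ₗ[k] k := fun b =>
    (TrivSqZeroExt.fstHom k k (Polynomial k)).toLinearMap ∘ₗ ρ b ∘ₗ
      TrivSqZeroExt.inrHom k (Polynomial k)
  obtain ⟨p, hp0, hp⟩ := exists_ne_zero (ι := (S ⊕ S) ⊕ Unit)
    (Sum.elim (Sum.elim (fun i => ψ i.1.1) (fun i => ψ i.1.2)) (fun _ => φ))
  have hφ : (r1 k (Alg k) (g (1 ⊗ₜ TrivSqZeroExt.inr p))).fst = 0 := hp (Sum.inr ())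
  have h1 : ∀ i ∈ S, (ρ i.1 (TrivSqZeroExt.inr p)).fst = 0 := fun i hi =>
    hp (Sum.inl (Sum.inl ⟨i, hi⟩))
  have h2 : ∀ i ∈ S, (ρ i.2 (TrivSqZeroExt.inr p)).fst = 0 := fun i hi =>
    hp (Sum.inl (Sum.inr ⟨i, hi⟩))
  set v : Alg k := TrivSqZeroExt.inr p with hv
  have key := congrArg (r1 k (Alg k)) (hgm (1 ⊗ₜ v) (1 ⊗ₜ v))
  rw [mul_tmul, r1_mul ρ F hF.reduces m' hm] at key
  have hvv : v * v = 0 := by rw [hv, TrivSqZeroExt.inr_mul_inr]
  have e1 : (DualNumber.eps * ((1 : DualNumber k) * 1)) ⊗ₜ[k] beta k v v =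
      (DualNumber.eps : DualNumber k) • ((1 : DualNumber k) ⊗ₜ[k] beta k v v) := by
    rw [TensorProduct.smul_tmul', smul_eq_mul, mul_one]
  rw [hvv, TensorProduct.tmul_zero, zero_add, e1, map_smul, r1_smul, hg, hg, red_tmul, red_tmul,
    hS] at key
  have key2 := congrArg TrivSqZeroExt.snd key
  have hsum : ((ev ρ v v) (∑ i ∈ S, i.1 ⊗ₜ[k] i.2)).snd = 0 := by
    rw [map_sum]
    have : ∀ i ∈ S, ((ev ρ v v) (i.1 ⊗ₜ[k] i.2)).snd = 0 := by
      intro i hi
      have : (ev ρ v v) (i.1 ⊗ₜ[k] i.2) = ρ i.1 v * ρ i.2 v := by simp [ev]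
      rw [this, TrivSqZeroExt.snd_mul, h1 i hi, h2 i hi]
      simp
    rw [TrivSqZeroExt.snd_sum]
    exact Finset.sum_eq_zero this
  simp only [DualNumber.fst_eps, DualNumber.snd_eps, zero_smul, one_smul, zero_add,
    TrivSqZeroExt.fst_one, TrivSqZeroExt.snd_add, TrivSqZeroExt.snd_mul, hsum] at key2
  have hv0 : v.fst = 0 := by rw [hv, TrivSqZeroExt.fst_inr]
  rw [hφ, hv0, beta_apply, TrivSqZeroExt.snd_inr, MulOpposite.op_zero, zero_smul, zero_smul,
    zero_smul, zero_smul, add_zero, add_zero, add_zero, hv, TrivSqZeroExt.snd_inr] at key2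
  exact hp0 (mul_self_eq_zero.mp key2)

end Example

/-- **Main theorem.** Over every field `k` there are a unital associative algebra `A` and a
deformation of `A` over `R = k[ε]` which is not equivalent to any deformation coming from a
universal deformation formula, for any bialgebra `B`. -/
theorem result (k : Type u) [Field k] :
    ∃ m : DualNumber k ⊗[k] Alg k →ₗ[DualNumber k] DualNumber k ⊗[k] Alg k
        →ₗ[DualNumber k] DualNumber k ⊗[k] Alg k,
      IsDeformation (pi k) (Alg k) m ∧
      ∀ m', IsDeformation (pi k) (Alg k) m' → ComesFromUDF.{u, x} (pi k) m' →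
        ¬ Equivalent (pi k) m m' :=
  ⟨mul k, isDeformation k, fun m' _ h => not_equivalent m' h⟩

end Pool.Agent.Results.MP_8ccf7f_al.NotFromUDF
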